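import Pool.Agent.Helper69.TPF.St3

/-!
# Project TPF, module ATF: automorphisms of the levels of the free group
-/

set_option autoImplicit false

open scoped commutatorElement

namespace Pool.Agent.Helper36.TPF

open Pool.Agent.Helper69.TPF Pool.Agent.Helper6.TS

/-- A compatible sequence of epimorphisms to the finite quotients gives an automorphism of the tower. -/
theorem tower_of {G : Type} [Group G] (hfin : ∀ n, Finite (Lq G n)) (φ : ∀ n, G →* Lq G n)
    (hφ : ∀ n x, lproj G n (φ (n + 1) x) = φ n x) (hs : ∀ n, Function.Surjective (φ n)) :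
    ∃ θ : FTower G, ∀ n x, θ.aut n (QuotientGroup.mk x) = φ n x := by
  let e : ∀ n, Lq G n →* Lq G n := fun n =>
    QuotientGroup.lift (lev G n) (φ n) (fun x hx => lev_hom_kill (φ n) hx)
  have he : ∀ n x, e n (QuotientGroup.mk x) = φ n x := fun n x => rfl
  have hsur : ∀ n, Function.Surjective (e n) := by
    intro n y
    obtain ⟨x, hx⟩ := hs n y
    exact ⟨QuotientGroup.mk x, by rw [he, hx]⟩
  have hbij : ∀ n, Function.Bijective (e n) := by
    intro n
    have := hfin n
    exact ⟨Finite.injective_iff_surjective.2 (hsur n), hsur n⟩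
  refine ⟨⟨fun n => MulEquiv.ofBijective (e n) (hbij n), ?_⟩, fun n x => rfl⟩
  intro n y
  obtain ⟨x, rfl⟩ := QuotientGroup.mk_surjective y
  show lproj G n (e (n + 1) (QuotientGroup.mk x)) = e n (lproj G n (QuotientGroup.mk x))
  rw [he, hφ]
  rfl

/-- The range of a homomorphism which hits a generating tuple. -/
theorem surj_of_gen {ι G H : Type} [Group G] [Group H] (φ : G →* H) (y : ι → H) (hy : Gen y)
    (z : ι → G) (hz : ∀ i, φ (z i) = y i) : Function.Surjective φ := by
  rw [← MonoidHom.range_eq_top, ← top_le_iff]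
  unfold Gen at hy
  rw [← hy, Subgroup.closure_le]
  rintro _ ⟨i, rfl⟩
  exact ⟨z i, hz i⟩

theorem cATF (lfi : St_LFI) : St_ATF := by
  intro g w hw hg
  obtain ⟨θ, hθ⟩ := tower_of (fun n => lfi (FreeGroup (Fin g)) n)
    (fun n => FreeGroup.lift (w n)) (fun n x => by
      have h1 : (lproj (FreeGroup (Fin g)) n).comp (FreeGroup.lift (w (n + 1)))
          = FreeGroup.lift (w n) := by
        ext i
        simp only [MonoidHom.comp_apply, FreeGroup.lift_apply_of, hw]
      exact DFunLike.congr_fun h1 x)
    (fun n => surj_of_gen _ (w n) (hg n) FreeGroup.of fun i => FreeGroup.lift_apply_of)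
  refine ⟨θ, fun n i => ?_⟩
  rw [hθ]
  exact FreeGroup.lift_apply_of

end Pool.Agent.Helper36.TPF
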