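import Pool.Agent.Helper69.TPF.St3
import Pool.Agent.Helper36.TPF.M_ATF

/-!
# Project TPF, module ATS: automorphisms of the levels of the surface group
-/

set_option autoImplicit false

open scoped commutatorElement

namespace Pool.Agent.Helper36.TPF

open Pool.Agent.Helper69.TPF Pool.Agent.Helper6.TS

theorem cATS (lfi : St_LFI) : St_ATS := by
  intro g y hy hg hr
  have hrel : ∀ n, ∀ r ∈ ({relator g} : Set (FreeGroup (Fin g × Bool))),
      FreeGroup.lift (y n) r = 1 := by
    intro n r hr'
    rw [Set.mem_singleton_iff] at hr'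
    rw [hr', ← Rel_eq_lift, hr n]
  let φ : ∀ n, Surf g →* Lq (Surf g) n := fun n => PresentedGroup.toGroup (hrel n)
  have hφ : ∀ n i, φ n (PresentedGroup.of i) = y n i := fun n i => PresentedGroup.toGroup.of _
  have hFG : Group.FG (Surf g) :=
    Group.fg_of_surjective (f := PresentedGroup.mk {relator g}) (PresentedGroup.mk_surjective _)
  obtain ⟨θ, hθ⟩ := tower_of (fun n => lfi (Surf g) n) φ (fun n x => by
      have h1 : (lproj (Surf g) n).comp (φ (n + 1)) = φ n := by
        refine PresentedGroup.ext fun i => ?_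
        rw [MonoidHom.comp_apply, hφ, hφ, hy]
      exact DFunLike.congr_fun h1 x)
    (fun n => surj_of_gen _ (y n) (hg n) (fun i => PresentedGroup.of i) (hφ n))
  refine ⟨θ, fun n i => ?_⟩
  rw [hθ, hφ]

end Pool.Agent.Helper36.TPF
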