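import Pool.Agent.Helper69.TPF.St2

/-!
# Project TPF, module NGN: normal generation of the kernel
-/

set_option autoImplicit false

open scoped commutatorElement

namespace Pool.Agent.Helper36.TPF

open Pool.Agent.Helper69.TPF Pool.Agent.Helper6.TS

theorem cNGN : St_NGN := by
  intro g m t l a y hay hy ν hν
  set K : Subgroup (FreeGroup (Fin g)) :=
    Subgroup.normalClosure {x | ∃ s, t s ≠ l ∧ x = y s} ⊔ lev (FreeGroup (Fin g)) m with hK
  have hKn : K.Normal := by
    rw [hK]
    exact Subgroup.sup_normal _ _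
  have hl : lev (FreeGroup (Fin g)) m ≤ K := le_sup_right
  have hn : ∀ s, t s ≠ l → y s ∈ K := fun s hs =>
    (le_sup_left : _ ≤ K) (Subgroup.subset_normalClosure ⟨s, hs, rfl⟩)
  -- `ν = lift y W * r`
  have h1 : ν ∈ Subgroup.closure (Set.range y) ⊔ lev (FreeGroup (Fin g)) m := by
    have h := hy
    unfold GenMod at h
    rw [h]
    exact Subgroup.mem_top _
  rw [Subgroup.mem_sup_of_normal_right] at h1
  obtain ⟨w, hw, r, hr, hwr⟩ := h1
  rw [← FreeGroup.range_lift_eq_closure] at hw
  obtain ⟨W, rfl⟩ := hw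
  -- the homomorphisms
  let ρ : FreeGroup (Fin g) →* FreeGroup {i // t i = l} := FreeGroup.lift (tgt t l)
  let σ : FreeGroup {i // t i = l} →* FreeGroup (Fin g) := FreeGroup.lift fun i => y i.1
  have h2 : a.comp (FreeGroup.lift y) = ρ := by
    ext s
    simp [ρ, hay]
  have h3 : ρ W ∈ lev (FreeGroup {i // t i = l}) m := by
    have h4 : ρ W = a r⁻¹ := by
      rw [← h2, MonoidHom.comp_apply, map_inv, eq_inv_iff_mul_eq_one, ← map_mul, hwr, hν]
    rw [h4]
    exact lev_map a (Subgroup.inv_mem _ hr)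
  have h5 : σ (ρ W) ∈ K := hl (lev_map σ h3)
  have h6 : (QuotientGroup.mk' K).comp (FreeGroup.lift y)
      = (QuotientGroup.mk' K).comp (σ.comp ρ) := by
    ext s
    simp only [MonoidHom.comp_apply, FreeGroup.lift_apply_of, ρ]
    by_cases hs : t s = l
    · have h7 : tgt t l s = FreeGroup.of ⟨s, hs⟩ := by simp [tgt, hs]
      rw [h7]
      simp [σ]
    · have h7 : tgt t l s = 1 := by simp [tgt, hs]
      rw [h7, map_one, map_one]
      exact (QuotientGroup.eq_one_iff _).2 (hn s hs)
  have h8 : FreeGroup.lift y W ∈ K := by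
    have h9 := DFunLike.congr_fun h6 W
    simp only [MonoidHom.comp_apply] at h9
    have h10 : QuotientGroup.mk' K (σ (ρ W)) = 1 := (QuotientGroup.eq_one_iff _).2 h5
    rw [h10] at h9
    exact (QuotientGroup.eq_one_iff _).1 h9
  rw [← hwr]
  exact K.mul_mem h8 (hl hr)

end Pool.Agent.Helper36.TPF
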