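import Pool.Agent.Helper69.TPF.St3

/-!
# Project TPF, module VNA: the coefficient module
-/

set_option autoImplicit false

open scoped commutatorElement

namespace Pool.Agent.Helper36.TPF

open Pool.Agent.Helper69.TPF Pool.Agent.Helper6.TS

theorem cVNA (lfi : St_LFI) : St_VNA := by
  intro g n J a ha
  set D : Subgroup (FreeGroup (Fin g)) := ⁅a.ker, a.ker⁆ ⊔ lev (FreeGroup (Fin g)) n with hD
  have hDn : D.Normal := by
    rw [hD]
    exact Subgroup.sup_normal _ _
  have hfin : Finite (FreeGroup (Fin g) ⧸ D) := by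
    have h1 : Finite (FreeGroup (Fin g) ⧸ lev (FreeGroup (Fin g)) n) := lfi _ n
    have h2 : (lev (FreeGroup (Fin g)) n).FiniteIndex := Subgroup.finiteIndex_of_finite_quotient
    have h3 : D.FiniteIndex := Subgroup.finiteIndex_of_le (H := lev (FreeGroup (Fin g)) n)
      le_sup_right
    exact Subgroup.finite_quotient_of_finiteIndex
  let B : Subgroup (FreeGroup (Fin g) ⧸ D) := a.ker.map (QuotientGroup.mk' D)
  have hB : B.Normal := Subgroup.Normal.map inferInstance _ (QuotientGroup.mk'_surjective D)
  have hcomm : ∀ x y : B, x * y = y * x := by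
    rintro ⟨_, ν, hν, rfl⟩ ⟨_, ν', hν', rfl⟩
    apply Subtype.ext
    show QuotientGroup.mk' D ν * QuotientGroup.mk' D ν'
      = QuotientGroup.mk' D ν' * QuotientGroup.mk' D ν
    rw [← commutatorElement_eq_one_iff_mul_comm, ← map_commutatorElement]
    exact (QuotientGroup.eq_one_iff _).2
      ((le_sup_left : _ ≤ D) (Subgroup.commutator_mem_commutator hν hν'))
  let cg : CommGroup B := { (inferInstance : Group B) with mul_comm := hcomm }
  let c : FreeGroup (Fin g) →* MulAut B := MulAut.conjNormal.comp (QuotientGroup.mk' D)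
  let s : FreeGroup J →* FreeGroup (Fin g) :=
    FreeGroup.lift fun j => (ha (FreeGroup.of j)).choose
  have hs : ∀ x, a (s x) = x := by
    intro x
    have h1 : a.comp s = MonoidHom.id _ := by
      ext j
      simp only [s, MonoidHom.comp_apply, FreeGroup.lift_apply_of, MonoidHom.id_apply]
      exact (ha (FreeGroup.of j)).choose_spec
    exact DFunLike.congr_fun h1 x
  have hck : ∀ ν, a ν = 1 → c ν = 1 := by
    intro ν hν
    ext x
    show QuotientGroup.mk' D ν * x * (QuotientGroup.mk' D ν)⁻¹ = x
    have h1 := congrArg Subtype.val (hcomm ⟨QuotientGroup.mk' D ν, ν, hν, rfl⟩ x)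
    have h2 : QuotientGroup.mk' D ν * x = x * QuotientGroup.mk' D ν := h1
    rw [h2, mul_inv_cancel_right]
  have hca : ∀ z, c (s (a z)) = c z := by
    intro z
    have h1 : a (z⁻¹ * s (a z)) = 1 := by rw [map_mul, map_inv, hs, inv_mul_cancel]
    have h2 := hck _ h1
    rw [map_mul, map_inv, inv_mul_eq_one] at h2
    exact h2.symm
  let q : a.ker →* B := ((QuotientGroup.mk' D).comp a.ker.subtype).codRestrict B
    (fun ν => ⟨ν, ν.2, rfl⟩)
  have hfB : Finite B := inferInstance
  refine ⟨B, cg, hfB, c.comp s, q, ?_, ?_⟩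
  · intro ν
    rw [Subtype.ext_iff]
    exact QuotientGroup.eq_one_iff _
  · intro z ν ν' h
    apply Subtype.ext
    have h1 : (c.comp s) (a z) = c z := hca z
    rw [h1]
    show QuotientGroup.mk' D (ν' : FreeGroup (Fin g)) = QuotientGroup.mk' D z
      * QuotientGroup.mk' D (ν : FreeGroup (Fin g)) * (QuotientGroup.mk' D z)⁻¹
    rw [h, map_mul, map_mul, map_inv]

end Pool.Agent.Helper36.TPF
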